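import Pool.Agent.MP_08f2bd_gt.Mg.OwnBridge

/-!
The isoperimetric profile of the unit cube equals one on a window around half volume whose width
does not depend on the dimension.
-/

set_option autoImplicit false
open MeasureTheory

namespace Pool.Agent.Results.MP_08f2bd_gt.Plateau

open Pool.Agent.MP_08f2bd_gt Pool.Agent.MP_08f2bd_gt.Own

theorem result (n : ℕ∞) (hn : 1 ≤ n) (d : ℕ) (hd : 1 ≤ d) (t : ℝ)
    (h1 : 1 / 2 - 1 / 10000 ≤ t) (h2 : t ≤ 1 / 2 + 1 / 10000) :
    Pool.Agent.MP_08f2bd_gt.Own.profile n d t = 1 := by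
  apply le_antisymm
  · obtain ⟨m, rfl⟩ : ∃ m, d = m + 1 := ⟨d - 1, by omega⟩
    exact profile_le_one n hn m t (by linarith) (by linarith)
  · refine le_iInf₂ fun A hA => ?_
    have h := prof_le_perimeter n A hA.1 hA.2.1
    rwa [Measure.real, hA.2.2, ENNReal.toReal_ofReal (by linarith), prof_plateau t h1 h2,
      ENNReal.ofReal_one] at h

end Pool.Agent.Results.MP_08f2bd_gt.Plateau
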